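import Pool.Agent.P.MP_e7d440_ag.G.All

namespace Pool.Agent.Results.MP_e7d440_ag.GLnFull

open Pool.Agent.P.MP_e7d440_ag

/-- Local models for `GL_n`, any parahoric level `I`, any minuscule coweight: every local ring
of the flat closure of the generic fibre is pseudo-rational. -/
theorem result (O : Type) [CommRing O] [IsDomain O] [IsDiscreteValuationRing O] [CharZero O]
    (π : O) (hπ : Irreducible π) (r m : ℕ) (I : Finset (Fin (r + m))) (hI : I.Nonempty)
    (J : Fin (r + m) → Fin r → Fin (r + m)) (hJ : ∀ i ∈ I, Function.Injective (J i))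
    (𝔭 : Ideal (chart π I J)) [𝔭.IsPrime] :
    G.PseudoRational (Localization.AtPrime 𝔭) :=
  G.final G.q_BRG G.q_CHA G.q_CHC O π hπ r m I hI J hJ 𝔭

end Pool.Agent.Results.MP_e7d440_ag.GLnFull
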