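import Pool.Agent.P.MP_e7d440_ag.V.Final

namespace Pool.Agent.Results.MP_e7d440_ag.Tame

open Pool.Agent.P.MP_e7d440_ag Pool.Agent.P.MP_e7d440_ag.V LieAlgebra LieAlgebra.IsKilling

/-- Local models for restrictions of scalars of tamely ramified groups, any parahoric level, any
minuscule coweight. `K` is the function field of the flag variety, `X` its generic point. `A` is
a ring whose localizations at maximal ideals are local rings of the normalized flat closure over
`O`; every Noetherian local ring `B` over which `A` is finite and free is a normal domain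
satisfying the Lipman-Teissier injectivity condition. -/
theorem result {L Φ Δ O J K ι : Type} [LieRing L] [LieAlgebra ℚ L] [FiniteDimensional ℚ L]
    [IsKilling ℚ L] [CommRing O] [IsDomain O] [IsDiscreteValuationRing O] [Field K] [CharZero K]
    [Algebra O K] [Fintype Φ] [Fintype J] [Finite ι] [Nonempty ι] (D : Dat L Φ Δ O J)
    (H : LieSubalgebra ℚ L) [H.IsCartanSubalgebra] [LieModule.IsTriangularizable ℚ H L]
    (b : (rootSystem H).Base) (rt : Φ ≃ H.root) (sm : Δ ≃ b.support) (ς : Equiv.Perm Φ)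
    (hD : Tame D H b rt sm ς) (X : J × Φ → K)
    (hX : AlgebraicIndependent O fun p : D.Idx => X p)
    (hK : Subfield.closure (Set.range (algebraMap O K) ∪ X '' D.Idx) = ⊤)
    (x : ι → L) (hx : ∀ i, x i ∈ H ∧ D.InAlc K (x i)) (r : ι → ℚ) (A : Subalgebra O K)
    (hA : ∀ 𝔫 : Ideal A, 𝔫.IsMaximal → ∃ C : ι → Finset (ℤ × (Φ ⊕ Δ)),
      (∀ i, D.IsChart X (x i) (r i) (C i)) ∧ ∃ 𝔭 : Ideal (D.nchart X x r C), 𝔭.IsPrime ∧
        ∀ γ, Loc A 𝔫 γ ↔ Loc (D.nchart X x r C) 𝔭 γ)
    (B : Type) [CommRing B] [IsLocalRing B] [IsNoetherianRing B] [Algebra B A]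
    [Module.Finite B A] [Module.Free B A] :
    IsDomain B ∧ IsIntegrallyClosed B ∧ LTInj B :=
  final D H b rt sm ς hD X hX hK x hx r A hA B

end Pool.Agent.Results.MP_e7d440_ag.Tame
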