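import Pool.Agent.P.MP_e7d440_ag.Z.Fin0
import Pool.Agent.P.MP_e7d440_ag.Z.AllG

namespace Pool.Agent.Results.MP_e7d440_ag.TameFull

open Pool.Agent.P.MP_e7d440_ag Pool.Agent.P.MP_e7d440_ag.V LieAlgebra LieAlgebra.IsKilling

/-- Local models for restrictions of scalars of tamely ramified groups, any parahoric level `x`,
any minuscule coweight, any residue characteristic. `K` is the function field of the flag
variety, `X` its generic point. `A` is a ring whose localizations at maximal ideals are local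
rings of the normalized flat closure over `O` in the Grassmannian of the parahoric lattice of `x`;
every Noetherian local ring `B` over which `A` is finite and free is pseudo-rational. -/
theorem result {L Φ Δ O J K : Type} [LieRing L] [LieAlgebra ℚ L] [FiniteDimensional ℚ L]
    [IsKilling ℚ L] [CommRing O] [IsDomain O] [IsDiscreteValuationRing O] [Field K] [CharZero K]
    [Algebra O K] [Fintype Φ] [Fintype J] (p : ℕ) [Fact p.Prime]
    [CharP (IsLocalRing.ResidueField O) p] [PerfectField (IsLocalRing.ResidueField O)]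
    (D : Dat L Φ Δ O J)
    (H : LieSubalgebra ℚ L) [H.IsCartanSubalgebra] [LieModule.IsTriangularizable ℚ H L]
    (b : (rootSystem H).Base) (rt : Φ ≃ H.root) (sm : Δ ≃ b.support) (ς : Equiv.Perm Φ)
    (hD : Tame D H b rt sm ς) (κ : J → O) (hκ : ∀ j, IsUnit (κ j))
    (hκ' : ∀ i j, i ≠ j → IsUnit (κ i ^ D.ℓ - κ j ^ D.ℓ)) (X : J × Φ → K)
    (hX : AlgebraicIndependent O fun q : D.Idx => X q)
    (hK : Subfield.closure (Set.range (algebraMap O K) ∪ X '' D.Idx) = ⊤)
    (x : L) (hx : x ∈ H ∧ D.InAlc K x) (A : Subalgebra O K) [Algebra.EssFiniteType O A]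
    (hA : ∀ 𝔫 : Ideal A, 𝔫.IsMaximal → ∃ C : Finset (ℤ × (Φ ⊕ Δ)), D.IsChart X x 0 C ∧
      ∃ 𝔭 : Ideal (D.nchart X (fun _ : Unit => x) (fun _ => 0) fun _ => C), 𝔭.IsPrime ∧
        ∀ γ, Loc A 𝔫 γ ↔ Loc (D.nchart X (fun _ : Unit => x) (fun _ => 0) fun _ => C) 𝔭 γ)
    (B : Type) [CommRing B] [IsLocalRing B] [IsNoetherianRing B] [Algebra B A]
    [Module.Finite B A] [Module.Free B A] :
    G.PseudoRational B :=
  Z.fin0 Z.q_DSC Z.q_CMT (fun c => Z.q_CRE c) p D H b rt sm ς hD κ hκ hκ' X hX hK x hx A hA B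

end Pool.Agent.Results.MP_e7d440_ag.TameFull
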